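import Mathlib
import Pool.Agent.Helper123.PLP.Mat
import Pool.Agent.Y810.PLP.Key2

/-!
# The points-lines-planes inequality with the constant 15648/35

The argument of `Pool.Agent.Helper123.PLP.Main` with rebalanced parameters: a plane is good if
more than `5/6` of the points of its longest line are rich, a point is rich at scale `κ` if the
long lines through it contain at least `3/4` of the other points.
-/

namespace Pool.Agent.Y810.PLP

open Finset Pool.Agent.Helper123.PLP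

set_option linter.unusedSectionVars false

lemma geom2 (b : ℕ) (hb : 1 ≤ b) (K : ℕ) :
    ((b : ℝ) + 1) * ∑ κ ∈ range K, (if (b : ℝ) < 2 ^ (κ + 1) then (1 / 2 : ℝ) ^ κ else 0) ≤ 4 := by
  have hb0 : b ≠ 0 := by omega
  set k0 := Nat.log 2 b with hk0
  have h1 : 2 ^ k0 ≤ b := Nat.pow_log_le_self 2 hb0
  have h2 : b < 2 ^ (k0 + 1) := Nat.lt_pow_succ_log_self (by norm_num) b
  have h3 : ∑ κ ∈ range K, (if (b : ℝ) < 2 ^ (κ + 1) then (1 / 2 : ℝ) ^ κ else 0) ≤
      ∑ κ ∈ range K, (if k0 ≤ κ then (1 / 2 : ℝ) ^ κ else 0) := by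
    apply sum_le_sum
    intro κ _
    by_cases hκ : k0 ≤ κ
    · rw [if_pos hκ]; split_ifs
      · exact le_rfl
      · positivity
    · rw [if_neg hκ, if_neg]
      push Not
      have : 2 ^ (κ + 1) ≤ 2 ^ k0 := Nat.pow_le_pow_right (by norm_num) (by omega)
      have : 2 ^ (κ + 1) ≤ b := this.trans h1
      exact_mod_cast this
  rw [geom_aux] at h3
  have h4 : (0 : ℝ) ≤ 2 * (1 / 2 : ℝ) ^ (max K k0) := by positivity
  have h6 : (b : ℝ) + 1 ≤ 2 ^ (k0 + 1) := by exact_mod_cast h2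
  have h8 : (2 : ℝ) ^ (k0 + 1) * (2 * (1 / 2 : ℝ) ^ k0) = 4 := by
    rw [pow_succ, one_div, inv_pow]
    have : (2 : ℝ) ^ k0 ≠ 0 := by positivity
    field_simp
    norm_num
  have hb1 : (0 : ℝ) ≤ (b : ℝ) + 1 := by positivity
  calc ((b : ℝ) + 1) * ∑ κ ∈ range K, (if (b : ℝ) < 2 ^ (κ + 1) then (1 / 2 : ℝ) ^ κ else 0)
      ≤ ((b : ℝ) + 1) * (2 * (1 / 2 : ℝ) ^ k0) :=
        mul_le_mul_of_nonneg_left (by linarith) hb1
    _ ≤ 2 ^ (k0 + 1) * (2 * (1 / 2 : ℝ) ^ k0) :=
        mul_le_mul_of_nonneg_right h6 (by positivity)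
    _ = 4 := h8

lemma many_above3 {α : Type*} [DecidableEq α] (l S : Finset α) (f : α → ℝ) (hS : S ⊆ l)
    (κ : ℕ) (hl : 2 ^ κ + 1 ≤ l.card) (hSc : 5 * l.card < 6 * S.card) :
    7 * (2 : ℝ) ^ κ ≤ 12 * ((S.filter (fun v => (2 : ℝ) ^ κ ≤
      4 * ((l.filter (fun u => u ≠ v ∧ f v ≤ f u)).card : ℝ))).card : ℝ) := by
  set C := S.filter (fun v => (2 : ℝ) ^ κ ≤
    4 * ((l.filter (fun u => u ≠ v ∧ f v ≤ f u)).card : ℝ)) with hC
  set W := S.filter (fun v => ¬ ((2 : ℝ) ^ κ ≤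
    4 * ((l.filter (fun u => u ≠ v ∧ f v ≤ f u)).card : ℝ))) with hW
  have hsum : C.card + W.card = S.card := by
    rw [hC, hW]; exact card_filter_add_card_filter_not (s := S) _
  have hWb : W.card = 0 ∨ 4 * (W.card - 1) < 2 ^ κ := by
    rcases Finset.eq_empty_or_nonempty W with h | h
    · left; rw [h]; simp
    · right
      obtain ⟨v, hv, hmin⟩ := Finset.exists_min_image W f h
      have hv' := hv
      rw [hW, mem_filter] at hv'
      have h1 : W.erase v ⊆ l.filter (fun u => u ≠ v ∧ f v ≤ f u) := by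
        intro u hu
        rw [mem_erase] at hu
        rw [mem_filter]
        refine ⟨hS (mem_filter.mp hu.2).1, hu.1, hmin u hu.2⟩
      have h2 := card_le_card h1
      rw [card_erase_of_mem hv] at h2
      have h4 := hv'.2
      push Not at h4
      have h5 : 4 * (l.filter (fun u => u ≠ v ∧ f v ≤ f u)).card < 2 ^ κ := by exact_mod_cast h4
      omega
  have key : 7 * 2 ^ κ ≤ 12 * C.card := by
    rcases κ with _ | _ | k
    · simp only [pow_zero] at hl hWb ⊢
      omega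
    · simp only [zero_add, pow_one] at hl hWb ⊢
      omega
    · have e : 2 ^ (k + 1 + 1) = 4 * 2 ^ k := by ring
      rw [e] at hl hWb ⊢
      have hk : 1 ≤ 2 ^ k := Nat.one_le_two_pow
      generalize 2 ^ k = y at *
      omega
  exact_mod_cast key

variable {P : Type*} [Fintype P] [DecidableEq P] (G : Geo P)

lemma lp_bad3 (κ : ℕ) (v : P) (hv : G.VV κ v < (3 / 4) * ((Fintype.card P : ℝ) - 1)) :
    ((Fintype.card P : ℝ) - 1) / (4 * (2 ^ (κ + 1)) ^ 2) ≤ G.lp v := by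
  have h1 := G.sum_split κ v
  have h2 : ((Fintype.card P : ℝ) - 1) / 4 ≤ ∑ l ∈ G.D v (2 ^ (κ + 1)), bb l := by linarith
  have h3 : ∑ l ∈ G.D v (2 ^ (κ + 1)), bb l / (2 ^ (κ + 1)) ^ 2 ≤
      ∑ l ∈ G.D v (2 ^ (κ + 1)), 1 / (l.card : ℝ) := by
    apply sum_le_sum
    intro l hl
    rw [G.mem_D] at hl
    have hc := Geo.card_le_of_bb_lt κ hl.2
    have hp := G.card_pos_of_mem hl.1.1
    rw [div_le_div_iff₀ (by positivity) hp]
    have hb : bb l ≤ 2 ^ (κ + 1) := hl.2.le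
    have hb1 := G.bb_ge hl.1.1
    calc bb l * (l.card : ℝ) ≤ 2 ^ (κ + 1) * 2 ^ (κ + 1) :=
          mul_le_mul hb hc hp.le (by positivity)
      _ = 1 * (2 ^ (κ + 1)) ^ 2 := by ring
  have h4 : ∑ l ∈ G.D v (2 ^ (κ + 1)), 1 / (l.card : ℝ) ≤ G.lp v := by
    unfold Geo.lp
    apply sum_le_sum_of_subset_of_nonneg (filter_subset _ _)
    intro l _ _
    positivity
  rw [← sum_div] at h3
  have h5 : ((Fintype.card P : ℝ) - 1) / (4 * (2 ^ (κ + 1)) ^ 2) =
      (((Fintype.card P : ℝ) - 1) / 4) / (2 ^ (κ + 1)) ^ 2 := by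
    rw [div_div]
  rw [h5]
  have h6 : (((Fintype.card P : ℝ) - 1) / 4) / (2 ^ (κ + 1)) ^ 2 ≤
      (∑ l ∈ G.D v (2 ^ (κ + 1)), bb l) / (2 ^ (κ + 1)) ^ 2 := by
    apply div_le_div_of_nonneg_right h2; positivity
  linarith


lemma E_bound3 (κ : ℕ) (v : P) (hn : 1 < Fintype.card P)
    (hv : (3 / 4) * ((Fintype.card P : ℝ) - 1) ≤ G.VV κ v) :
    ((G.E v (2 ^ (κ + 1)) (G.D1 κ v)).card : ℝ) * ((Fintype.card P : ℝ) - 1) ≤
      256 / 5 * (G.L.card : ℝ) * G.rho κ v := by
  have hn' : (1 : ℝ) < (Fintype.card P : ℝ) := by exact_mod_cast hn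
  have hVpos : 0 < G.VV κ v := by linarith
  have hle : ((G.D1 κ v).card : ℝ) ≤ G.rho κ v := by
    unfold Geo.rho; exact_mod_cast card_le_card (G.D1_sub κ v)
  have hsq : ((G.D1 κ v).card : ℝ) ^ 2 ≤ 8 * (G.L.card : ℝ) := by
    have h1 := G.D1_bound κ v
    have h2 : (0 : ℝ) ≤ ((G.D1 κ v).card : ℝ) := by positivity
    nlinarith
  have hr1V : ((G.D1 κ v).card : ℝ) ≤ 4 / 3 * G.VV κ v := by
    have h1 : ((G.D1 κ v).card : ℝ) ≤ ∑ l ∈ G.Lv v, bb l := by
      have e1 : ((G.D1 κ v).card : ℝ) = ∑ l ∈ G.D1 κ v, (1 : ℝ) := by simp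
      rw [e1]
      refine (sum_le_sum (g := fun l => bb l) ?_).trans ?_
      · intro l hl
        exact G.bb_ge (G.mem_D.mp (G.D1_sub κ v hl)).1.1
      · apply sum_le_sum_of_subset_of_nonneg
        · exact (G.D1_sub κ v).trans (filter_subset _ _)
        · intro l hl _
          have := G.bb_ge (G.mem_Lv.mp hl).1
          linarith
    rw [G.sum_bb_univ] at h1
    linarith
  have hT : (2 : ℝ) ≤ 2 ^ (κ + 1) := by
    have : (1 : ℝ) ≤ 2 ^ κ := one_le_pow₀ (by norm_num)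
    rw [pow_succ]; linarith
  have hkey := key2 G v (2 ^ (κ + 1)) hT (G.D1 κ v) (G.D1_sub κ v) hVpos hsq hr1V
  change ((G.E v (2 ^ (κ + 1)) (G.D1 κ v)).card : ℝ) * G.VV κ v ≤
    66 / 5 * (G.L.card : ℝ) * (((G.D1 κ v).card : ℝ) + G.rho κ v)
      + 12 * (G.L.card : ℝ) * G.rho κ v at hkey
  have hE0 : (0 : ℝ) ≤ ((G.E v (2 ^ (κ + 1)) (G.D1 κ v)).card : ℝ) := by positivity
  have ht0 : (0 : ℝ) ≤ (G.L.card : ℝ) := by positivity
  have e1 : ((G.E v (2 ^ (κ + 1)) (G.D1 κ v)).card : ℝ) * ((3 / 4) * ((Fintype.card P : ℝ) - 1)) ≤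
      ((G.E v (2 ^ (κ + 1)) (G.D1 κ v)).card : ℝ) * G.VV κ v :=
    mul_le_mul_of_nonneg_left hv hE0
  have e2 : (G.L.card : ℝ) * ((G.D1 κ v).card : ℝ) ≤ (G.L.card : ℝ) * G.rho κ v :=
    mul_le_mul_of_nonneg_left hle ht0
  nlinarith

theorem main3 (hn : 1 < Fintype.card P) :
    ((Fintype.card P : ℝ) - 1) * (G.H.card : ℝ) ≤ 15648 / 35 * (G.L.card : ℝ) ^ 2 := by
  classical
  have hn' : (1 : ℝ) < (Fintype.card P : ℝ) := by exact_mod_cast hn
  -- longest lines
  have hex : ∀ h : Finset P, ∃ l : Finset P, h ∈ G.H →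
      l ∈ inn G.L h ∧ ∀ k ∈ inn G.L h, bb k ≤ bb l := by
    intro h
    by_cases hh : h ∈ G.H
    · obtain ⟨l0, hl0, hl0h, -⟩ := G.nondeg h hh
      have hne : (inn G.L h).Nonempty := ⟨l0, mem_inn.mpr ⟨hl0, hl0h⟩⟩
      obtain ⟨l, hl, hmax⟩ := Finset.exists_max_image (inn G.L h) bb hne
      exact ⟨l, fun _ => ⟨hl, hmax⟩⟩
    · exact ⟨∅, fun h' => absurd h' hh⟩
  choose L1 hL1 using hex
  set kap : Finset P → ℕ := fun h => Nat.log 2 ((L1 h).card - 1) with hkap
  have hL1L : ∀ h ∈ G.H, L1 h ∈ G.L := fun h hh => (mem_inn.mp (hL1 h hh).1).1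
  have hL1h : ∀ h ∈ G.H, L1 h ⊆ h := fun h hh => (mem_inn.mp (hL1 h hh).1).2
  have hk1 : ∀ h ∈ G.H, (2 : ℝ) ^ kap h ≤ bb (L1 h) := by
    intro h hh
    rw [G.bb_eq (hL1L h hh)]
    have h2 := G.two_le _ (hL1L h hh)
    have : 2 ^ kap h ≤ (L1 h).card - 1 := Nat.pow_log_le_self 2 (by omega)
    exact_mod_cast this
  have hk2 : ∀ h ∈ G.H, bb (L1 h) < (2 : ℝ) ^ (kap h + 1) := by
    intro h hh
    rw [G.bb_eq (hL1L h hh)]
    have : (L1 h).card - 1 < 2 ^ (kap h + 1) := Nat.lt_pow_succ_log_self (by norm_num) _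
    exact_mod_cast this
  have hk3 : ∀ h ∈ G.H, kap h ∈ range (Fintype.card P + 1) := by
    intro h hh
    rw [mem_range]
    have h1 : kap h ≤ (L1 h).card - 1 := Nat.log_le_self 2 _
    have h2 : (L1 h).card ≤ Fintype.card P := card_le_univ _
    omega
  set S : Finset P → Finset P := fun h =>
    (L1 h).filter (fun v => (3 / 4) * ((Fintype.card P : ℝ) - 1) ≤ G.VV (kap h) v) with hS
  set HG := G.H.filter (fun h => 5 * (L1 h).card < 6 * (S h).card) with hHG
  set HB := G.H.filter (fun h => ¬ (5 * (L1 h).card < 6 * (S h).card)) with hHB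
  have hHsum : (HG.card : ℝ) + HB.card = G.H.card := by
    have : HG.card + HB.card = G.H.card := by
      rw [hHG, hHB]; exact card_filter_add_card_filter_not (s := G.H) _
    exact_mod_cast this
  -- bad planes
  have hbad : ((Fintype.card P : ℝ) - 1) * (HB.card : ℝ) ≤ 96 * (G.L.card : ℝ) ^ 2 := by
    have hb1 : ∀ h ∈ HB, ((Fintype.card P : ℝ) - 1) / 96 ≤
        ∑ v ∈ h, G.lp v * ((G.Nf v h).card : ℝ) := by
      intro h hh
      rw [hHB, mem_filter] at hh
      obtain ⟨hhH, hnot⟩ := hh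
      push Not at hnot
      have hlpnn : ∀ v, 0 ≤ G.lp v := by
        intro v; unfold Geo.lp; apply sum_nonneg; intros; positivity
      set W := (L1 h).filter (fun v => ¬ ((3 / 4) * ((Fintype.card P : ℝ) - 1) ≤ G.VV (kap h) v)) with hW
      have hWS : (S h).card + W.card = (L1 h).card := by
        rw [hW]; exact card_filter_add_card_filter_not (s := L1 h) _
      have hWc : (L1 h).card ≤ 6 * W.card := by omega
      have hWc' : ((L1 h).card : ℝ) ≤ 6 * W.card := by exact_mod_cast hWc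
      have hb := hk1 h hhH
      have hWc2 : (2 : ℝ) ^ kap h / 6 ≤ W.card := by
        have : bb (L1 h) = ((L1 h).card : ℝ) - 1 := rfl
        linarith
      have step1 : ∑ v ∈ W, G.lp v * ((G.Nf v h).card : ℝ) ≤
          ∑ v ∈ h, G.lp v * ((G.Nf v h).card : ℝ) := by
        apply sum_le_sum_of_subset_of_nonneg
        · exact (filter_subset _ _).trans (hL1h h hhH)
        · intro v _ _; exact mul_nonneg (hlpnn v) (by positivity)
      have step2 : ∑ v ∈ W, (((Fintype.card P : ℝ) - 1) / (4 * (2 ^ (kap h + 1)) ^ 2)) *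
          (2 : ℝ) ^ kap h ≤ ∑ v ∈ W, G.lp v * ((G.Nf v h).card : ℝ) := by
        apply sum_le_sum
        intro v hv
        rw [hW, mem_filter] at hv
        have k1 := lp_bad3 G (kap h) v (lt_of_not_ge hv.2)
        have hvh : h ∈ G.Hv v := G.mem_Hv.mpr ⟨hhH, hL1h h hhH hv.1⟩
        have k2 := G.F2' hvh (j := L1 h)
          (mem_inn.mpr ⟨G.mem_Lv.mpr ⟨hL1L h hhH, hv.1⟩, hL1h h hhH⟩)
        apply mul_le_mul k1 (hb.trans k2) (by positivity) (hlpnn v)
      rw [sum_const, nsmul_eq_mul] at step2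
      have step3 : ((Fintype.card P : ℝ) - 1) / 96 ≤ (W.card : ℝ) *
          ((((Fintype.card P : ℝ) - 1) / (4 * (2 ^ (kap h + 1)) ^ 2)) * (2 : ℝ) ^ kap h) := by
        have hp : (0 : ℝ) < 2 ^ kap h := by positivity
        have hnn : 0 ≤ (((Fintype.card P : ℝ) - 1) / (4 * (2 ^ (kap h + 1)) ^ 2)) * (2 : ℝ) ^ kap h := by
          apply mul_nonneg _ hp.le
          apply div_nonneg (by linarith) (by positivity)
        refine le_trans (le_of_eq ?_) (mul_le_mul_of_nonneg_right hWc2 hnn)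
        rw [pow_succ]
        field_simp
        ring
      linarith
    have hb2 : ∑ h ∈ HB, ((Fintype.card P : ℝ) - 1) / 96 ≤ (G.L.card : ℝ) ^ 2 := by
      refine (sum_le_sum hb1).trans (le_trans ?_ G.total)
      apply sum_le_sum_of_subset_of_nonneg (filter_subset _ _)
      intro h _ _
      apply sum_nonneg
      intro v _
      apply mul_nonneg _ (by positivity)
      unfold Geo.lp; apply sum_nonneg; intros; positivity
    rw [sum_const, nsmul_eq_mul] at hb2
    linarith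
  -- good planes
  have hgood : ((Fintype.card P : ℝ) - 1) * (HG.card : ℝ) ≤ 12288 / 35 * (G.L.card : ℝ) ^ 2 := by
    set C : Finset P → Finset P := fun h => (S h).filter (fun v => (2 : ℝ) ^ kap h ≤
      4 * (((L1 h).filter (fun u => u ≠ v ∧ G.rho (kap h) v ≤ G.rho (kap h) u)).card : ℝ)) with hC
    have hg1 : ∀ h ∈ HG, (1 : ℝ) ≤ ∑ v ∈ C h, (12 / 7) * (1 / 2 : ℝ) ^ kap h := by
      intro h hh
      rw [hHG, mem_filter] at hh
      obtain ⟨hhH, hlt⟩ := hh
      have hp : (0 : ℝ) < 2 ^ kap h := by positivity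
      have hma := many_above3 (L1 h) (S h) (G.rho (kap h)) (filter_subset _ _) (kap h)
        (by
          have h3 := hk1 h hhH
          have h5 : bb (L1 h) = ((L1 h).card : ℝ) - 1 := rfl
          have h6 : (2 : ℝ) ^ kap h + 1 ≤ ((L1 h).card : ℝ) := by linarith
          exact_mod_cast h6) hlt
      rw [sum_const, nsmul_eq_mul]
      have h4 : 7 * (2 : ℝ) ^ kap h ≤ 12 * ((C h).card : ℝ) := hma
      have h5 : (2 : ℝ) ^ kap h * (1 / 2 : ℝ) ^ kap h = 1 := by
        rw [← mul_pow]; norm_num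
      have h6 : 7 * (2 : ℝ) ^ kap h * (1 / 2 : ℝ) ^ kap h ≤ 12 * ((C h).card : ℝ) * (1 / 2 : ℝ) ^ kap h :=
        mul_le_mul_of_nonneg_right h4 (by positivity)
      linarith
    have hg2 : (HG.card : ℝ) ≤ ∑ h ∈ HG, ∑ v ∈ C h, (12 / 7) * (1 / 2 : ℝ) ^ kap h := by
      have : (HG.card : ℝ) = ∑ h ∈ HG, (1 : ℝ) := by simp
      rw [this]; exact sum_le_sum hg1
    -- regroup
    have hg3 : ∑ h ∈ HG, ∑ v ∈ C h, (12 / 7) * (1 / 2 : ℝ) ^ kap h =
        ∑ κ ∈ range (Fintype.card P + 1), ∑ v : P, ∑ h ∈ HG,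
          (if kap h = κ ∧ v ∈ C h then (12 / 7) * (1 / 2 : ℝ) ^ κ else 0) := by
      have e1 : ∀ κ ∈ range (Fintype.card P + 1), ∑ v : P, ∑ h ∈ HG,
          (if kap h = κ ∧ v ∈ C h then (12 / 7) * (1 / 2 : ℝ) ^ κ else 0) =
          ∑ h ∈ HG, (if kap h = κ then ∑ v ∈ C h, (12 / 7) * (1 / 2 : ℝ) ^ κ else 0) := by
        intro κ _
        rw [sum_comm]
        apply sum_congr rfl
        intro h _
        by_cases hk : kap h = κ
        · simp only [hk, true_and, if_true]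
          rw [← sum_filter]
          congr 1
          ext v; simp
        · simp [hk]
      rw [sum_congr rfl e1, sum_comm]
      apply sum_congr rfl
      intro h hh
      rw [sum_ite_eq]
      rw [if_pos (hk3 h (mem_filter.mp hh).1)]
    have hg4 : ∀ κ ∈ range (Fintype.card P + 1), ∀ v ∈ (univ : Finset P),
        ((Fintype.card P : ℝ) - 1) * ∑ h ∈ HG,
          (if kap h = κ ∧ v ∈ C h then (12 / 7) * (1 / 2 : ℝ) ^ κ else 0) ≤
        (3072 / 35 * (G.L.card : ℝ)) * ((1 / 2 : ℝ) ^ κ * G.rho κ v) := by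
      intro κ _ v _
      rw [← sum_filter, sum_const, nsmul_eq_mul]
      by_cases hv : (3 / 4) * ((Fintype.card P : ℝ) - 1) ≤ G.VV κ v
      · have hsub : HG.filter (fun h => kap h = κ ∧ v ∈ C h) ⊆
            G.E v (2 ^ (κ + 1)) (G.D1 κ v) := by
          intro h hh
          rw [mem_filter] at hh
          obtain ⟨hhG, hkk, hvC⟩ := hh
          rw [hHG, mem_filter] at hhG
          obtain ⟨hhH, hlt⟩ := hhG
          have hvC' : v ∈ S h ∧ (2 : ℝ) ^ kap h ≤
            4 * (((L1 h).filter (fun u => u ≠ v ∧ G.rho (kap h) v ≤ G.rho (kap h) u)).card : ℝ) :=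
            mem_filter.mp hvC
          have hvL : v ∈ L1 h := (mem_filter.mp hvC'.1).1
          have hvh : v ∈ h := hL1h h hhH hvL
          unfold Geo.E
          rw [mem_filter]
          refine ⟨G.mem_Hv.mpr ⟨hhH, hvh⟩, ?_, L1 h, ?_⟩
          · rw [Finset.eq_empty_iff_forall_notMem]
            intro l hl
            rw [mem_inn, G.mem_A] at hl
            have k1 := (hL1 h hhH).2 l (mem_inn.mpr ⟨hl.1.1.1, hl.2⟩)
            have k2 := hk2 h hhH
            rw [hkk] at k2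
            linarith [hl.1.2]
          · rw [mem_inn]
            refine ⟨?_, hL1h h hhH⟩
            unfold Geo.D1
            rw [mem_filter, G.mem_D]
            refine ⟨⟨⟨hL1L h hhH, hvL⟩, ?_⟩, ?_⟩
            · have k2 := hk2 h hhH
              rwa [hkk] at k2
            · have k3 := hvC'.2
              rwa [hkk] at k3
        have hcard : ((HG.filter (fun h => kap h = κ ∧ v ∈ C h)).card : ℝ) ≤
            ((G.E v (2 ^ (κ + 1)) (G.D1 κ v)).card : ℝ) := by exact_mod_cast card_le_card hsub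
        have hE := E_bound3 G κ v hn hv
        have hpw : (0 : ℝ) ≤ (12 / 7) * (1 / 2 : ℝ) ^ κ := by positivity
        have e1 : ((Fintype.card P : ℝ) - 1) *
            (((HG.filter (fun h => kap h = κ ∧ v ∈ C h)).card : ℝ) * ((12 / 7) * (1 / 2 : ℝ) ^ κ)) ≤
            ((Fintype.card P : ℝ) - 1) *
            (((G.E v (2 ^ (κ + 1)) (G.D1 κ v)).card : ℝ) * ((12 / 7) * (1 / 2 : ℝ) ^ κ)) :=
          mul_le_mul_of_nonneg_left (mul_le_mul_of_nonneg_right hcard hpw) (by linarith)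
        have e2 : (((G.E v (2 ^ (κ + 1)) (G.D1 κ v)).card : ℝ) * ((Fintype.card P : ℝ) - 1)) *
            ((12 / 7) * (1 / 2 : ℝ) ^ κ) ≤ (256 / 5 * (G.L.card : ℝ) * G.rho κ v) * ((12 / 7) * (1 / 2 : ℝ) ^ κ) :=
          mul_le_mul_of_nonneg_right hE hpw
        linarith
      · have hempty : HG.filter (fun h => kap h = κ ∧ v ∈ C h) = ∅ := by
          rw [Finset.filter_eq_empty_iff]
          rintro h _ ⟨hkk, hvC⟩
          have hvC' : v ∈ S h := (mem_filter.mp hvC).1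
          have := (mem_filter.mp hvC').2
          rw [hkk] at this
          exact hv this
        rw [hempty]
        simp only [card_empty, Nat.cast_zero, zero_mul, mul_zero]
        have := G.rho_nonneg κ v
        positivity
    have hg5 : ((Fintype.card P : ℝ) - 1) * (HG.card : ℝ) ≤
        (3072 / 35 * (G.L.card : ℝ)) * ∑ κ ∈ range (Fintype.card P + 1), (1 / 2 : ℝ) ^ κ * ∑ v : P, G.rho κ v := by
      have e1 : ((Fintype.card P : ℝ) - 1) * (HG.card : ℝ) ≤ ((Fintype.card P : ℝ) - 1) *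
          ∑ h ∈ HG, ∑ v ∈ C h, (12 / 7) * (1 / 2 : ℝ) ^ kap h :=
        mul_le_mul_of_nonneg_left hg2 (by linarith)
      refine e1.trans ?_
      rw [hg3, mul_sum, mul_sum]
      apply sum_le_sum
      intro κ hκ
      rw [mul_sum, mul_sum, mul_sum]
      apply sum_le_sum
      intro v hv
      exact hg4 κ hκ v hv
    have hg6 : ∑ κ ∈ range (Fintype.card P + 1), (1 / 2 : ℝ) ^ κ * ∑ v : P, G.rho κ v ≤
        4 * (G.L.card : ℝ) := by
      have e1 : ∑ κ ∈ range (Fintype.card P + 1), (1 / 2 : ℝ) ^ κ * ∑ v : P, G.rho κ v =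
          ∑ l ∈ G.L, (l.card : ℝ) * ∑ κ ∈ range (Fintype.card P + 1),
            (if bb l < 2 ^ (κ + 1) then (1 / 2 : ℝ) ^ κ else 0) := by
        have e2 : ∀ κ ∈ range (Fintype.card P + 1), (1 / 2 : ℝ) ^ κ * ∑ v : P, G.rho κ v =
            ∑ l ∈ G.L, (l.card : ℝ) * (if bb l < 2 ^ (κ + 1) then (1 / 2 : ℝ) ^ κ else 0) := by
          intro κ _
          rw [G.sum_rho_eq, mul_sum]
          apply sum_congr rfl
          intro l _
          split_ifs <;> ring
        rw [sum_congr rfl e2, sum_comm]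
        apply sum_congr rfl
        intro l _
        rw [mul_sum]
      rw [e1]
      have e3 : ∀ l ∈ G.L, (l.card : ℝ) * ∑ κ ∈ range (Fintype.card P + 1),
            (if bb l < 2 ^ (κ + 1) then (1 / 2 : ℝ) ^ κ else 0) ≤ 4 := by
        intro l hl
        have h2 := G.two_le l hl
        have hg := geom2 (l.card - 1) (by omega) (Fintype.card P + 1)
        rw [← G.bb_eq hl] at hg
        have hc : (l.card : ℝ) = bb l + 1 := by
          have : bb l = (l.card : ℝ) - 1 := rfl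
          linarith
        rw [hc]; exact hg
      refine (sum_le_sum e3).trans ?_
      rw [sum_const, nsmul_eq_mul]; linarith
    have hg7 : (3072 / 35 * (G.L.card : ℝ)) * ∑ κ ∈ range (Fintype.card P + 1), (1 / 2 : ℝ) ^ κ *
        ∑ v : P, G.rho κ v ≤ (3072 / 35 * (G.L.card : ℝ)) * (4 * (G.L.card : ℝ)) :=
      mul_le_mul_of_nonneg_left hg6 (by positivity)
    nlinarith
  have : ((Fintype.card P : ℝ) - 1) * (G.H.card : ℝ) =
      ((Fintype.card P : ℝ) - 1) * (HG.card : ℝ) + ((Fintype.card P : ℝ) - 1) * (HB.card : ℝ) := by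
    rw [← hHsum]; ring
  linarith


end Pool.Agent.Y810.PLP
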