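import Mathlib
import Pool.Agent.Y810.PLP.Main3

/-!
# Points, lines and planes of a matroid: the constant 448
-/

namespace Pool.Agent.Y810.PLP

open Finset Pool.Agent.Helper123.PLP

set_option linter.unusedSectionVars false

section geo
variable {P : Type*} [Fintype P] [DecidableEq P] (G : Geo P)

/-- every plane contains at least three lines -/
lemma three_lines {h : Finset P} (hh : h ∈ G.H) : 3 ≤ (inn G.L h).card := by
  obtain ⟨l, hl, hlh, x, hx, hxl⟩ := G.nondeg h hh
  have h2 := G.two_le l hl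
  have h4 : (insert x l).card = l.card + 1 := card_insert_of_notMem hxl
  have h5 : (insert x l).card ≤ h.card := card_le_card (by
    intro y hy
    rcases Finset.mem_insert.mp hy with rfl | hy
    · exact hx
    · exact hlh hy)
  have h6 := G.dBE hh
  omega

/-- two different lines lie in at most one plane -/
lemma plane_unique {l l' : Finset P} (hl : l ∈ G.L) (hl' : l' ∈ G.L) (hne : l ≠ l')
    {h h' : Finset P} (hh : h ∈ G.H) (hh' : h' ∈ G.H) (h1 : l ⊆ h) (h2 : l' ⊆ h)
    (h1' : l ⊆ h') (h2' : l' ⊆ h') : h = h' := by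
  obtain ⟨x, hx, hxl⟩ : ∃ x ∈ l', x ∉ l := by
    by_contra hcon
    push Not at hcon
    obtain ⟨x, hx, y, hy, hxy⟩ := Finset.one_lt_card.mp
      (show 1 < l'.card by have := G.two_le l' hl'; omega)
    exact hne (G.uniq_line l hl l' hl' x y hxy (hcon x hx) (hcon y hy) hx hy)
  exact G.uniq_plane l hl x hxl h hh h' hh' h1 (h2 hx) h1' (h2' hx)

/-- six times the number of planes is at most the square of the number of lines -/
lemma six_planes : 6 * G.H.card ≤ G.L.card ^ 2 := by
  classical
  have h1 : (G.H.biUnion fun h => (inn G.L h).offDiag).card =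
      ∑ h ∈ G.H, ((inn G.L h).offDiag).card := by
    apply card_biUnion
    intro h hh h' hh' hne
    change Disjoint (inn G.L h).offDiag (inn G.L h').offDiag
    rw [Finset.disjoint_left]
    rintro ⟨l, l'⟩ hx hx'
    rw [mem_offDiag] at hx hx'
    obtain ⟨a1, a2, a3⟩ := hx
    obtain ⟨b1, b2, -⟩ := hx'
    rw [mem_inn] at a1 a2 b1 b2
    exact hne (plane_unique G a1.1 a2.1 a3 hh hh' a1.2 a2.2 b1.2 b2.2)
  have h2 : (G.H.biUnion fun h => (inn G.L h).offDiag) ⊆ G.L.offDiag := by
    intro p hp
    rw [mem_biUnion] at hp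
    obtain ⟨h, -, hp⟩ := hp
    rw [mem_offDiag] at hp ⊢
    exact ⟨(mem_inn.mp hp.1).1, (mem_inn.mp hp.2.1).1, hp.2.2⟩
  have h3 := card_le_card h2
  rw [h1, offDiag_card] at h3
  have h4 : ∑ h ∈ G.H, 6 ≤ ∑ h ∈ G.H, ((inn G.L h).offDiag).card := by
    apply sum_le_sum
    intro h hh
    rw [offDiag_card]
    have h5 := three_lines G hh
    have h6 : (inn G.L h).card * 3 ≤ (inn G.L h).card * (inn G.L h).card :=
      Nat.mul_le_mul_left _ h5
    omega
  rw [sum_const, smul_eq_mul] at h4
  have h7 : G.L.card * G.L.card - G.L.card ≤ G.L.card ^ 2 := by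
    rw [sq]; exact Nat.sub_le _ _
  omega

theorem geo_final (hn : 1 < Fintype.card P) :
    (Fintype.card P : ℝ) * (G.H.card : ℝ) ≤ (15648 / 35 + 1 / 6) * (G.L.card : ℝ) ^ 2 := by
  have h1 := main3 G hn
  have h2 : (6 : ℝ) * (G.H.card : ℝ) ≤ (G.L.card : ℝ) ^ 2 := by exact_mod_cast six_planes G
  nlinarith

end geo

section mat
open Classical
variable {α : Type*} [Finite α] (M : Matroid α)

/-- the rank 1-2-3 inequality -/
theorem flats_main3 :
    (flats M 1).card * (flats M 3).card ≤ 448 * (flats M 2).card ^ 2 := by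
  rcases Nat.eq_zero_or_pos (flats M 3).card with h0 | hpos
  · rw [h0]; simp only [mul_zero]; positivity
  · -- at least three points
    obtain ⟨K, hK⟩ := Finset.card_pos.mp hpos
    have hKG : pts M K ∈ (toGeo M).H := Finset.mem_image.mpr ⟨K, hK, rfl⟩
    obtain ⟨l, hl, hlh, x, hx, hxl⟩ := (toGeo M).nondeg _ hKG
    have h2 := (toGeo M).two_le l hl
    have h3 : 3 ≤ Fintype.card (Pt M) := by
      have h4 : (insert x l).card = l.card + 1 := card_insert_of_notMem hxl
      have h5 := card_le_univ (insert x l)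
      omega
    have hm := geo_final (toGeo M) (by omega)
    rw [card_L, card_H, card_pt] at hm
    have h9 : ((flats M 1).card : ℝ) * ((flats M 3).card : ℝ) ≤
        448 * ((flats M 2).card : ℝ) ^ 2 := by
      have e : (0 : ℝ) ≤ ((flats M 2).card : ℝ) ^ 2 := by positivity
      linarith
    exact_mod_cast h9

/-- the rank 1-2-3 inequality for the sets of flats -/
theorem flats_ncard3 :
    {F : Set α | M.IsFlat F ∧ M.eRk F = 1}.ncard * {F : Set α | M.IsFlat F ∧ M.eRk F = 3}.ncard
      ≤ 448 * {F : Set α | M.IsFlat F ∧ M.eRk F = 2}.ncard ^ 2 := by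
  have h1 := card_flats M 1
  have h2 := card_flats M 2
  have h3 := card_flats M 3
  rw [Nat.cast_one] at h1
  rw [Nat.cast_ofNat] at h2 h3
  rw [h1, h2, h3]
  exact flats_main3 M

end mat

end Pool.Agent.Y810.PLP
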