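import Mathlib
import Pool.Agent.Y810.PLP.Final3

/-!
# Points, determined lines and determined planes in a real affine space
-/

namespace Pool.Agent.Y810.PLP

open Finset Pool.Agent.Helper123.PLP Module

set_option linter.unusedSectionVars false

section real
variable {V : Type*} [NormedAddCommGroup V] [NormedSpace ℝ V]

/-- the lines determined by `S` -/
def detLines (S : Finset V) : Set (AffineSubspace ℝ V) :=
  {A | ∃ x ∈ S, ∃ y ∈ S, x ≠ y ∧ A = affineSpan ℝ {x, y}}

/-- the planes determined by `S` -/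
def detPlanes (S : Finset V) : Set (AffineSubspace ℝ V) :=
  {A | ∃ x ∈ S, ∃ y ∈ S, ∃ z ∈ S, x ≠ y ∧ z ∉ affineSpan ℝ {x, y} ∧ A = affineSpan ℝ {x, y, z}}

lemma line_eq {x y u w : V} (huw : u ≠ w) (hxy : x ≠ y)
    (hu : u ∈ affineSpan ℝ ({x, y} : Set V)) (hw : w ∈ affineSpan ℝ ({x, y} : Set V)) :
    affineSpan ℝ ({u, w} : Set V) = affineSpan ℝ {x, y} := by
  have h1 : AffineIndependent ℝ ![u, w] := affineIndependent_of_ne ℝ huw
  have h2 : AffineIndependent ℝ ![x, y] := affineIndependent_of_ne ℝ hxy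
  have r1 : Set.range ![u, w] = {u, w} := by simp [Set.pair_comm]
  have r2 : Set.range ![x, y] = {x, y} := by simp [Set.pair_comm]
  have f2 := h2.finrank_vectorSpan (n := 1) (by simp)
  rw [r2] at f2
  have : FiniteDimensional ℝ (affineSpan ℝ ({x, y} : Set V)).direction := by
    rw [direction_affineSpan]
    exact finiteDimensional_vectorSpan_of_finite ℝ (Set.toFinite _)
  have := h1.affineSpan_eq_of_le_of_card_eq_finrank_add_one
    (sp := affineSpan ℝ ({x, y} : Set V)) (by
      rw [r1, affineSpan_le]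
      intro p hp
      rcases hp with rfl | hp
      · exact hu
      · rw [Set.mem_singleton_iff] at hp; rw [hp]; exact hw) (by
      rw [direction_affineSpan, f2]; simp)
  rwa [r1] at this

lemma plane_eq {x y z u w v : V} (huw : u ≠ w) (hv : v ∉ affineSpan ℝ ({u, w} : Set V))
    (hxy : x ≠ y) (hz : z ∉ affineSpan ℝ ({x, y} : Set V))
    (hu' : u ∈ affineSpan ℝ ({x, y, z} : Set V)) (hw' : w ∈ affineSpan ℝ ({x, y, z} : Set V))
    (hv' : v ∈ affineSpan ℝ ({x, y, z} : Set V)) :
    affineSpan ℝ ({u, w, v} : Set V) = affineSpan ℝ {x, y, z} := by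
  have h1 : AffineIndependent ℝ ![u, w, v] :=
    affineIndependent_of_ne_of_mem_of_mem_of_notMem huw
      (left_mem_affineSpan_pair ℝ u w) (right_mem_affineSpan_pair ℝ u w) hv
  have h2 : AffineIndependent ℝ ![x, y, z] :=
    affineIndependent_of_ne_of_mem_of_mem_of_notMem hxy
      (left_mem_affineSpan_pair ℝ x y) (right_mem_affineSpan_pair ℝ x y) hz
  have r1 : Set.range ![u, w, v] = {u, w, v} := by
    ext t; simp [eq_comm]; tauto
  have r2 : Set.range ![x, y, z] = {x, y, z} := by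
    ext t; simp [eq_comm]; tauto
  have f2 := h2.finrank_vectorSpan (n := 2) (by simp)
  rw [r2] at f2
  have : FiniteDimensional ℝ (affineSpan ℝ ({x, y, z} : Set V)).direction := by
    rw [direction_affineSpan]
    exact finiteDimensional_vectorSpan_of_finite ℝ (Set.toFinite _)
  have := h1.affineSpan_eq_of_le_of_card_eq_finrank_add_one
    (sp := affineSpan ℝ ({x, y, z} : Set V)) (by
      rw [r1, affineSpan_le]
      intro p hp
      rcases hp with rfl | rfl | hp
      · exact hu'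
      · exact hw'
      · rw [Set.mem_singleton_iff] at hp; rw [hp]; exact hv') (by
      rw [direction_affineSpan, f2]; simp)
  rwa [r1] at this

open Classical in
/-- the points of `S` in an affine subspace -/
noncomputable def tr (S : Finset V) (A : AffineSubspace ℝ V) : Finset S :=
  univ.filter (fun p => (p : V) ∈ A)

lemma mem_tr {S : Finset V} {A : AffineSubspace ℝ V} {p : S} : p ∈ tr S A ↔ (p : V) ∈ A := by
  simp [tr]

lemma line_le (x y z : V) : affineSpan ℝ ({x, y} : Set V) ≤ affineSpan ℝ {x, y, z} := by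
  apply affineSpan_mono
  intro t ht
  rcases ht with rfl | ht
  · simp
  · rw [Set.mem_singleton_iff] at ht; rw [ht]; simp

lemma third_mem (x y z : V) : z ∈ affineSpan ℝ ({x, y, z} : Set V) :=
  mem_affineSpan ℝ (by simp)

open Classical in
/-- the geometry of a finite set of points -/
noncomputable def realGeo (S : Finset V) : Geo S where
  L := univ.filter (fun l => ∃ A ∈ detLines S, l = tr S A)
  H := univ.filter (fun h => ∃ A ∈ detPlanes S, h = tr S A)
  two_le := by
    intro l hl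
    obtain ⟨A, ⟨x, hx, y, hy, hxy, rfl⟩, rfl⟩ := (mem_filter.mp hl).2
    exact Finset.one_lt_card.mpr ⟨⟨x, hx⟩, mem_tr.mpr (left_mem_affineSpan_pair ℝ x y),
      ⟨y, hy⟩, mem_tr.mpr (right_mem_affineSpan_pair ℝ x y), fun h => hxy (congrArg Subtype.val h)⟩
  ex_line := by
    intro x y hxy
    refine ⟨tr S (affineSpan ℝ {(x : V), (y : V)}), mem_filter.mpr ⟨mem_univ _, _,
      ⟨x, x.2, y, y.2, fun h => hxy (Subtype.ext h), rfl⟩, rfl⟩,
      mem_tr.mpr (left_mem_affineSpan_pair ℝ _ _), mem_tr.mpr (right_mem_affineSpan_pair ℝ _ _)⟩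
  uniq_line := by
    intro l hl l' hl' x y hxy hx hy hx' hy'
    obtain ⟨A, ⟨a, ha, b, hb, hab, rfl⟩, rfl⟩ := (mem_filter.mp hl).2
    obtain ⟨A', ⟨a', ha', b', hb', hab', rfl⟩, rfl⟩ := (mem_filter.mp hl').2
    have hne : (x : V) ≠ y := fun h => hxy (Subtype.ext h)
    rw [mem_tr] at hx hy hx' hy'
    rw [← line_eq hne hab hx hy, ← line_eq hne hab' hx' hy']
  ex_plane := by
    intro l hl x hx
    obtain ⟨A, ⟨a, ha, b, hb, hab, rfl⟩, rfl⟩ := (mem_filter.mp hl).2
    rw [mem_tr] at hx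
    refine ⟨tr S (affineSpan ℝ {a, b, (x : V)}), mem_filter.mpr ⟨mem_univ _, _,
      ⟨a, ha, b, hb, x, x.2, hab, hx, rfl⟩, rfl⟩, ?_, mem_tr.mpr (third_mem _ _ _)⟩
    intro p hp
    rw [mem_tr] at hp ⊢
    exact line_le _ _ _ hp
  uniq_plane := by
    intro l hl x hx h hh h' hh' h1 h2 h3 h4
    obtain ⟨A, ⟨a, ha, b, hb, hab, rfl⟩, rfl⟩ := (mem_filter.mp hl).2
    obtain ⟨B, ⟨u, hu, v, hv, w, hw, huv, hwn, rfl⟩, rfl⟩ := (mem_filter.mp hh).2
    obtain ⟨B', ⟨u', hu', v', hv', w', hw', huv', hwn', rfl⟩, rfl⟩ := (mem_filter.mp hh').2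
    rw [mem_tr] at hx
    have ma : (⟨a, ha⟩ : S) ∈ tr S (affineSpan ℝ {a, b}) :=
      mem_tr.mpr (left_mem_affineSpan_pair ℝ a b)
    have mb : (⟨b, hb⟩ : S) ∈ tr S (affineSpan ℝ {a, b}) :=
      mem_tr.mpr (right_mem_affineSpan_pair ℝ a b)
    have k1 := plane_eq hab hx huv hwn (mem_tr.mp (h1 ma)) (mem_tr.mp (h1 mb)) (mem_tr.mp h2)
    have k2 := plane_eq hab hx huv' hwn' (mem_tr.mp (h3 ma)) (mem_tr.mp (h3 mb)) (mem_tr.mp h4)
    rw [← k1, ← k2]
  closed := by
    intro h hh l hl x y hxy hx hy hx' hy'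
    obtain ⟨A, ⟨a, ha, b, hb, hab, rfl⟩, rfl⟩ := (mem_filter.mp hl).2
    obtain ⟨B, ⟨u, hu, v, hv, w, hw, huv, hwn, rfl⟩, rfl⟩ := (mem_filter.mp hh).2
    have hne : (x : V) ≠ y := fun h => hxy (Subtype.ext h)
    rw [mem_tr] at hx hy hx' hy'
    have k := line_eq hne hab hx hy
    intro p hp
    rw [mem_tr, ← k] at hp
    rw [mem_tr]
    have hle : affineSpan ℝ ({(x : V), (y : V)} : Set V) ≤ affineSpan ℝ {u, v, w} := by
      rw [affineSpan_le]
      intro t ht
      rcases ht with rfl | ht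
      · exact hx'
      · rw [Set.mem_singleton_iff] at ht; rw [ht]; exact hy'
    exact hle hp
  nondeg := by
    intro h hh
    obtain ⟨B, ⟨u, hu, v, hv, w, hw, huv, hwn, rfl⟩, rfl⟩ := (mem_filter.mp hh).2
    refine ⟨tr S (affineSpan ℝ {u, v}), mem_filter.mpr ⟨mem_univ _, _,
      ⟨u, hu, v, hv, huv, rfl⟩, rfl⟩, ?_, ⟨w, hw⟩, mem_tr.mpr (third_mem _ _ _), ?_⟩
    · intro p hp
      rw [mem_tr] at hp ⊢
      exact line_le _ _ _ hp
    · rw [mem_tr]; exact hwn

lemma detLines_finite (S : Finset V) : (detLines S).Finite := by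
  refine (((S ×ˢ S).finite_toSet).image
    (fun p : V × V => affineSpan ℝ ({p.1, p.2} : Set V))).subset ?_
  rintro A ⟨x, hx, y, hy, -, rfl⟩
  exact ⟨(x, y), by simp [hx, hy], rfl⟩

/-- points, lines and planes determined by a finite set of points -/
theorem real_main (S : Finset V) :
    S.card * (detPlanes S).ncard ≤ 448 * (detLines S).ncard ^ 2 := by
  classical
  rcases Nat.lt_or_ge 1 S.card with hS | hS
  · have hc : Fintype.card S = S.card := Fintype.card_coe S
    have hm := geo_final (realGeo S) (by rw [hc]; exact hS)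
    rw [hc] at hm
    have hL : (realGeo S).L.card ≤ (detLines S).ncard := by
      rw [Set.ncard_eq_toFinset_card _ (detLines_finite S)]
      refine (card_le_card (t := (detLines_finite S).toFinset.image (tr S)) ?_).trans
        card_image_le
      intro l hl
      obtain ⟨A, hA, rfl⟩ := (mem_filter.mp hl).2
      exact mem_image_of_mem _ ((detLines_finite S).mem_toFinset.mpr hA)
    have hH : (detPlanes S).ncard ≤ (realGeo S).H.card := by
      rw [← Set.ncard_coe_finset]
      refine Set.ncard_le_ncard_of_injOn (tr S) ?_ ?_ (Finset.finite_toSet _)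
      · intro A hA
        exact mem_coe.mpr (mem_filter.mpr ⟨mem_univ _, A, hA, rfl⟩)
      · rintro A ⟨x, hx, y, hy, z, hz, hxy, hzn, rfl⟩ B ⟨u, hu, v, hv, w, hw, huv, hwn, rfl⟩ hAB
        have key : ∀ p : S, (p : V) ∈ affineSpan ℝ ({x, y, z} : Set V) →
            (p : V) ∈ affineSpan ℝ ({u, v, w} : Set V) := by
          intro p hp
          have h1 : p ∈ tr S (affineSpan ℝ {x, y, z}) := mem_tr.mpr hp
          rw [hAB] at h1
          exact mem_tr.mp h1
        exact plane_eq hxy hzn huv hwn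
          (key ⟨x, hx⟩ (line_le x y z (left_mem_affineSpan_pair ℝ x y)))
          (key ⟨y, hy⟩ (line_le x y z (right_mem_affineSpan_pair ℝ x y)))
          (key ⟨z, hz⟩ (third_mem x y z))
    have hL' : ((realGeo S).L.card : ℝ) ≤ ((detLines S).ncard : ℝ) := by exact_mod_cast hL
    have hH' : ((detPlanes S).ncard : ℝ) ≤ ((realGeo S).H.card : ℝ) := by exact_mod_cast hH
    have h5 : (S.card : ℝ) * ((detPlanes S).ncard : ℝ) ≤ (S.card : ℝ) * ((realGeo S).H.card : ℝ) :=
      mul_le_mul_of_nonneg_left hH' (by positivity)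
    have h6 : ((realGeo S).L.card : ℝ) ^ 2 ≤ ((detLines S).ncard : ℝ) ^ 2 :=
      pow_le_pow_left₀ (by positivity) hL' 2
    have h7 : (S.card : ℝ) * ((detPlanes S).ncard : ℝ) ≤ 448 * ((detLines S).ncard : ℝ) ^ 2 := by
      have h8 : (0 : ℝ) ≤ ((realGeo S).L.card : ℝ) ^ 2 := by positivity
      linarith
    exact_mod_cast h7
  · have hE : detPlanes S = ∅ := by
      rw [Set.eq_empty_iff_forall_notMem]
      rintro A ⟨x, hx, y, hy, z, hz, hxy, -, -⟩
      exact hxy (Finset.card_le_one.mp hS x hx y hy)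
    rw [hE]; simp

end real

end Pool.Agent.Y810.PLP
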